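import Mathlib

/-! Nested chains in the plane: definitions of the decision problem, and the general
lemmas on triangles used for the square root sum reduction. -/

open Set

namespace Pool.Agent.MP_aff8ab_lc

/-- Twice the signed area of the triangle `0, u, v`. -/
def cr (u v : ℂ) : ℝ := u.re * v.im - u.im * v.re

/-- The vertices `c 0, ..., c (n+2)` form, in this cyclic order, a strictly convex polygon. -/
def IsConvexPolygon {n : ℕ} (c : Fin (n + 3) → ℂ) : Prop :=
  (∀ i j, j ≠ i → j ≠ i + 1 → 0 < cr (c (i + 1) - c i) (c j - c i)) ∨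
    (∀ i j, j ≠ i → j ≠ i + 1 → cr (c (i + 1) - c i) (c j - c i) < 0)

/-- The `i`-th bar of the closed chain with vertices `c`. -/
def cbar {n : ℕ} (c : Fin (n + 3) → ℂ) (i : Fin (n + 3)) : Set ℂ :=
  segment ℝ (c i) (c (i + 1))

/-- The `i`-th bar of the open chain with vertices `a 0, ..., a k`. -/
def abar {k : ℕ} (a : Fin (k + 1) → ℂ) (i : Fin k) : Set ℂ :=
  segment ℝ (a i.castSucc) (a i.succ)

/-- The configuration of the closed chain `c` and the open chain `a` is non-self-intersecting: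
bars meet only when consecutive in the same chain, and then only at their shared vertex. -/
structure NonSelfIntersecting {n k : ℕ} (c : Fin (n + 3) → ℂ) (a : Fin (k + 1) → ℂ) : Prop where
  closed_consecutive : ∀ i, cbar c i ∩ cbar c (i + 1) = {c (i + 1)}
  closed_other : ∀ i j, i ≠ j → j ≠ i + 1 → i ≠ j + 1 → Disjoint (cbar c i) (cbar c j)
  open_consecutive : ∀ i j : Fin k, (i : ℕ) + 1 = j → abar a i ∩ abar a j = {a i.succ}
  open_other : ∀ i j : Fin k, (i : ℕ) + 1 < j → Disjoint (abar a i) (abar a j)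
  cross : ∀ i j, Disjoint (cbar c i) (abar a j)

/-- All vertices of the open chain lie on one segment, in order. -/
def Straight {k : ℕ} (a : Fin (k + 1) → ℂ) : Prop :=
  ∃ p u : ℂ, ∃ s : Fin (k + 1) → ℝ, StrictMono s ∧ ∀ i, a i = p + (s i : ℂ) * u

/-- A motion of the two chains, from the configuration `(c, a)`, that avoids self-intersection:
`C t`, `A t` are the vertices at time `t`, `0 ≤ t ≤ 1`. -/
structure IsMotion {n k : ℕ} (c : Fin (n + 3) → ℂ) (a : Fin (k + 1) → ℂ)
    (C : ℝ → Fin (n + 3) → ℂ) (A : ℝ → Fin (k + 1) → ℂ) : Prop where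
  closed_continuous : ∀ i, ContinuousOn (fun t => C t i) (Icc 0 1)
  open_continuous : ∀ j, ContinuousOn (fun t => A t j) (Icc 0 1)
  closed_length : ∀ t ∈ Icc (0 : ℝ) 1, ∀ i, dist (C t i) (C t (i + 1)) = dist (c i) (c (i + 1))
  open_length : ∀ t ∈ Icc (0 : ℝ) 1, ∀ j : Fin k,
    dist (A t j.castSucc) (A t j.succ) = dist (a j.castSucc) (a j.succ)
  nonSelfIntersecting : ∀ t ∈ Icc (0 : ℝ) 1, NonSelfIntersecting (C t) (A t)
  closed_start : C 0 = c
  open_start : A 0 = a

/-- The configuration `(c, a)` is an input of NESTED-UNLOCK. -/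
structure IsInput {n k : ℕ} (c : Fin (n + 3) → ℂ) (a : Fin (k + 1) → ℂ) : Prop where
  convex : IsConvexPolygon c
  inside : ∀ j, a j ∈ interior (convexHull ℝ (range c))
  nonSelfIntersecting : NonSelfIntersecting c a
  closed_rational : ∀ i, ∃ r s : ℚ, (c i).re = r ∧ (c i).im = s
  open_rational : ∀ j, ∃ r s : ℚ, (a j).re = r ∧ (a j).im = s

/-- The answer to NESTED-UNLOCK for the input `(c, a)` is yes. -/
def CanStraighten {n k : ℕ} (c : Fin (n + 3) → ℂ) (a : Fin (k + 1) → ℂ) : Prop :=
  ∃ C A, IsMotion c a C A ∧ Straight (A 1)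

end Pool.Agent.MP_aff8ab_lc
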