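import Pool.Agent.Work.MP_aff8ab_lc.Tri

/-! A motion of a triangle and an open chain inside it, seen from the frame of the triangle. -/

open Set

namespace Pool.Agent.MP_aff8ab_lc

/-- The point with the barycentric coordinates of `z` in the triangle `P Q R`, in the triangle
`P' Q' R'`. -/
noncomputable def fr (P Q R P' Q' R' z : ℂ) : ℂ :=
  ((bw P Q R z : ℂ) * P' + (bw Q R P z : ℂ) * Q' + (bw R P Q z : ℂ) * R')
    / ((area P Q R ^ 2 : ℝ) : ℂ)

theorem bw_comb (P Q R u v : ℂ) {s t : ℝ} (h : s + t = 1) :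
    bw P Q R (s • u + t • v) = s * bw P Q R u + t * bw P Q R v := by
  obtain rfl : t = 1 - s := by linarith
  simp only [bw, cr, Complex.real_smul, Complex.sub_re, Complex.sub_im, Complex.add_re,
    Complex.add_im, Complex.mul_re, Complex.mul_im, Complex.ofReal_re, Complex.ofReal_im]
  ring

theorem fr_comb (P Q R P' Q' R' u v : ℂ) {s t : ℝ} (h : s + t = 1) :
    fr P Q R P' Q' R' (s • u + t • v) =
      s • fr P Q R P' Q' R' u + t • fr P Q R P' Q' R' v := by
  unfold fr
  rw [bw_comb _ _ _ _ _ h, bw_comb _ _ _ _ _ h, bw_comb _ _ _ _ _ h]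
  simp only [Complex.real_smul]
  push_cast
  ring

/-- the squared length of a combination with vanishing sum -/
theorem normSq_comb (P Q R : ℂ) {a b c : ℝ} (h : a + b + c = 0) :
    ‖(a : ℂ) * P + b * Q + c * R‖ ^ 2 =
      -(a * b * dist P Q ^ 2 + b * c * dist Q R ^ 2 + c * a * dist R P ^ 2) := by
  obtain rfl : c = -a - b := by linarith
  have hd : ∀ z w : ℂ, dist z w ^ 2 = (z.re - w.re) ^ 2 + (z.im - w.im) ^ 2 := by
    intro z w
    rw [Complex.dist_eq_re_im, Real.sq_sqrt (by positivity)]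
  have hn : ∀ z : ℂ, ‖z‖ ^ 2 = z.re ^ 2 + z.im ^ 2 := by
    intro z
    rw [Complex.sq_norm, Complex.normSq_apply]
    ring
  rw [hd, hd, hd, hn]
  simp only [Complex.add_re, Complex.add_im, Complex.mul_re, Complex.mul_im, Complex.ofReal_re,
    Complex.ofReal_im]
  ring

theorem fr_dist {P Q R P' Q' R' : ℂ} (hA : area P Q R ≠ 0) (h1 : dist P' Q' = dist P Q)
    (h2 : dist Q' R' = dist Q R) (h3 : dist R' P' = dist R P) (z w : ℂ) :
    dist (fr P Q R P' Q' R' z) (fr P Q R P' Q' R' w) = dist z w := by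
  set S := area P Q R ^ 2 with hS
  have hSpos : 0 < S := by positivity
  have hSne : ((S : ℝ) : ℂ) ≠ 0 := by exact_mod_cast hSpos.ne'
  have sz := bw_sum' P Q R z
  have sw := bw_sum' P Q R w
  have ez := bw_smul P Q R z
  have ew := bw_smul P Q R w
  rw [← hS] at sz sw ez ew
  set a := bw P Q R z - bw P Q R w with ha
  set b := bw Q R P z - bw Q R P w with hb
  set c := bw R P Q z - bw R P Q w with hc
  have h0 : a + b + c = 0 := by rw [ha, hb, hc]; linarith
  have e1 : ‖(a : ℂ) * P' + b * Q' + c * R'‖ ^ 2 = ‖(a : ℂ) * P + b * Q + c * R‖ ^ 2 := by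
    rw [normSq_comb P' Q' R' h0, normSq_comb P Q R h0, h1, h2, h3]
  have e2 : ‖(a : ℂ) * P' + b * Q' + c * R'‖ = ‖(a : ℂ) * P + b * Q + c * R‖ := by
    have := congrArg Real.sqrt e1
    rwa [Real.sqrt_sq (norm_nonneg _), Real.sqrt_sq (norm_nonneg _)] at this
  have e3 : fr P Q R P' Q' R' z - fr P Q R P' Q' R' w =
      ((a : ℂ) * P' + b * Q' + c * R') / (S : ℂ) := by
    unfold fr
    rw [← hS, ha, hb, hc]
    push_cast
    ring
  have e4 : z - w = ((a : ℂ) * P + b * Q + c * R) / (S : ℂ) := by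
    have : (S : ℂ) * (z - w) = (a : ℂ) * P + b * Q + c * R := by
      rw [mul_sub, ez, ew, ha, hb, hc]
      push_cast
      ring
    rw [← this]
    field_simp
  rw [Complex.dist_eq, Complex.dist_eq, e3, e4, norm_div, norm_div, e2]

theorem fr_vertex {P Q R : ℂ} (hA : area P Q R ≠ 0) (P' Q' R' : ℂ) :
    fr P Q R P' Q' R' P = P' ∧ fr P Q R P' Q' R' Q = Q' ∧ fr P Q R P' Q' R' R = R' := by
  have hA' : ((area P Q R ^ 2 : ℝ) : ℂ) ≠ 0 := by
    exact_mod_cast (pow_ne_zero 2 hA)
  have h1 := area_rot P Q R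
  have h2 := area_rot' P Q R
  have k : ∀ P Q R : ℂ, bw P Q R P = area P Q R ^ 2 := fun P Q R => by
    simp only [bw, area]; ring
  have k1 : ∀ P Q R : ℂ, bw P Q R Q = 0 := fun P Q R => by
    simp [bw, cr]
  have k2 : ∀ P Q R : ℂ, bw P Q R R = 0 := fun P Q R => by
    simp [bw, cr]
  refine ⟨?_, ?_, ?_⟩
  · unfold fr
    rw [k, k2 Q R P, k1 R P Q]
    field_simp
    simp
  · unfold fr
    rw [k1 P Q R, k Q R P, k2 R P Q, h1]
    field_simp
    simp
  · unfold fr
    rw [k2 P Q R, k1 Q R P, k R P Q, h2]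
    field_simp
    simp

theorem fr_injective {P Q R P' Q' R' : ℂ} (hA : area P Q R ≠ 0) (h1 : dist P' Q' = dist P Q)
    (h2 : dist Q' R' = dist Q R) (h3 : dist R' P' = dist R P) :
    Function.Injective (fr P Q R P' Q' R') := fun z w h => by
  rw [← dist_eq_zero, ← fr_dist hA h1 h2 h3, h, dist_self]

theorem fr_segment (P Q R P' Q' R' u v : ℂ) : segment ℝ (fr P Q R P' Q' R' u)
    (fr P Q R P' Q' R' v) = fr P Q R P' Q' R' '' segment ℝ u v := by
  ext z
  constructor
  · rintro ⟨s, t, hs, ht, hst, rfl⟩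
    exact ⟨s • u + t • v, ⟨s, t, hs, ht, hst, rfl⟩, fr_comb _ _ _ _ _ _ _ _ hst⟩
  · rintro ⟨w, ⟨s, t, hs, ht, hst, rfl⟩, rfl⟩
    exact ⟨s, t, hs, ht, hst, (fr_comb _ _ _ _ _ _ _ _ hst).symm⟩

/-- the barycentric coordinates are kept -/
theorem fr_bw {P Q R P' Q' R' : ℂ} (hA : area P Q R ≠ 0) (hS : area P' Q' R' ^ 2 = area P Q R ^ 2)
    (z : ℂ) : bw P' Q' R' (fr P Q R P' Q' R' z) = bw P Q R z ∧
      bw Q' R' P' (fr P Q R P' Q' R' z) = bw Q R P z ∧
      bw R' P' Q' (fr P Q R P' Q' R' z) = bw R P Q z := by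
  have hSpos : 0 < area P Q R ^ 2 := by positivity
  set S := area P Q R ^ 2 with hSdef
  have hs := bw_sum' P Q R z
  rw [← hSdef] at hs
  set α := bw P Q R z with hα
  set β := bw Q R P z with hβ
  set γ := bw R P Q z with hγ
  have e : fr P Q R P' Q' R' z = ((α / S : ℝ) : ℂ) * P' + ((β / S : ℝ) : ℂ) * Q' +
      ((γ / S : ℝ) : ℂ) * R' := by
    unfold fr
    rw [← hSdef, ← hα, ← hβ, ← hγ]
    push_cast
    ring
  have hre : (fr P Q R P' Q' R' z).re = α / S * P'.re + β / S * Q'.re + γ / S * R'.re := by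
    rw [e]; simp
  have him : (fr P Q R P' Q' R' z).im = α / S * P'.im + β / S * Q'.im + γ / S * R'.im := by
    rw [e]; simp
  have hsum : α / S + β / S + γ / S = 1 := by
    field_simp
    linarith
  have key : ∀ a b c : ℝ, a + b + c = 1 → ∀ P' Q' R' z' : ℂ,
      z'.re = a * P'.re + b * Q'.re + c * R'.re → z'.im = a * P'.im + b * Q'.im + c * R'.im →
      bw P' Q' R' z' = a * area P' Q' R' ^ 2 := by
    intro a b c h P' Q' R' z' h1 h2
    obtain rfl : a = 1 - b - c := by linarith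
    simp only [bw, area, cr, Complex.sub_re, Complex.sub_im, h1, h2]
    ring
  have hne : S ≠ 0 := hSpos.ne'
  refine ⟨?_, ?_, ?_⟩
  · rw [key _ _ _ hsum P' Q' R' _ hre him, hS]
    field_simp
  · rw [key (β / S) (γ / S) (α / S) (by linarith) Q' R' P' _ (by rw [hre]; ring)
      (by rw [him]; ring), area_rot P' Q' R', hS]
    field_simp
  · rw [key (γ / S) (α / S) (β / S) (by linarith) R' P' Q' _ (by rw [hre]; ring)
      (by rw [him]; ring), area_rot' P' Q' R', hS]
    field_simp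

/-- The frame of the triangle: if the open chain can be straightened, then it can be straightened
while the triangle does not move. -/
theorem frame {k : ℕ} {c : Fin (0 + 3) → ℂ} {a : Fin (k + 1) → ℂ} (hk : 0 < k)
    (hA : area (c 0) (c 1) (c 2) ≠ 0) (hin : ∀ j, a j ∈ convexHull ℝ (range c))
    (h : CanStraighten c a) :
    ∃ A : ℝ → Fin (k + 1) → ℂ, (∀ j, ContinuousOn (fun t => A t j) (Icc 0 1)) ∧ A 0 = a ∧
      (∀ t ∈ Icc (0 : ℝ) 1,
        (∀ j : Fin k, dist (A t j.castSucc) (A t j.succ) = dist (a j.castSucc) (a j.succ)) ∧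
        NonSelfIntersecting c (A t) ∧
        ∀ j, 0 < bw (c 0) (c 1) (c 2) (A t j) ∧ 0 < bw (c 1) (c 2) (c 0) (A t j) ∧
          0 < bw (c 2) (c 0) (c 1) (A t j)) ∧
      Straight (A 1) := by
  obtain ⟨C, A, hm, hst⟩ := h
  have e01 : ∀ t ∈ Icc (0 : ℝ) 1, dist (C t 0) (C t 1) = dist (c 0) (c 1) :=
    fun t ht => hm.closed_length t ht 0
  have e12 : ∀ t ∈ Icc (0 : ℝ) 1, dist (C t 1) (C t 2) = dist (c 1) (c 2) :=
    fun t ht => hm.closed_length t ht 1
  have e20 : ∀ t ∈ Icc (0 : ℝ) 1, dist (C t 2) (C t 0) = dist (c 2) (c 0) :=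
    fun t ht => hm.closed_length t ht 2
  have hAreaSq : ∀ t ∈ Icc (0 : ℝ) 1, area (C t 0) (C t 1) (C t 2) ^ 2 =
      area (c 0) (c 1) (c 2) ^ 2 := by
    intro t ht
    rw [area_sq, e01 t ht, e12 t ht, e20 t ht, ← area_sq]
  have hArea : ∀ t ∈ Icc (0 : ℝ) 1, area (C t 0) (C t 1) (C t 2) ≠ 0 := by
    intro t ht h0
    have := hAreaSq t ht
    rw [h0] at this
    have h2 : area (c 0) (c 1) (c 2) ^ 2 = 0 := by rw [← this]; ring
    exact hA (pow_eq_zero_iff (two_ne_zero) |>.1 h2)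
  have hno : ∀ t ∈ Icc (0 : ℝ) 1, ∀ j : Fin (k + 1), ∀ i, A t j ∉ cbar (C t) i := by
    intro t ht j i hmem
    have hns := hm.nonSelfIntersecting t ht
    induction j using Fin.cases with
    | zero =>
      have h1 : A t 0 ∈ abar (A t) ⟨0, hk⟩ := by
        have : (0 : Fin (k + 1)) = Fin.castSucc ⟨0, hk⟩ := rfl
        rw [this]
        exact left_mem_segment ℝ _ _
      exact Set.disjoint_left.1 (hns.cross i ⟨0, hk⟩) hmem h1
    | succ j =>
      exact Set.disjoint_left.1 (hns.cross i j) hmem (right_mem_segment ℝ _ _)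
  have hn0 : ∀ t ∈ Icc (0 : ℝ) 1, ∀ j : Fin (k + 1), A t j ∉ segment ℝ (C t 1) (C t 2) :=
    fun t ht j => hno t ht j 1
  have hn1 : ∀ t ∈ Icc (0 : ℝ) 1, ∀ j : Fin (k + 1), A t j ∉ segment ℝ (C t 2) (C t 0) :=
    fun t ht j => hno t ht j 2
  have hn2 : ∀ t ∈ Icc (0 : ℝ) 1, ∀ j : Fin (k + 1), A t j ∉ segment ℝ (C t 0) (C t 1) :=
    fun t ht j => hno t ht j 0
  have hcont : ∀ (j : Fin (k + 1)) (i₀ i₁ i₂ : Fin (0 + 3)),
      ContinuousOn (fun t => bw (C t i₀) (C t i₁) (C t i₂) (A t j)) (Icc 0 1) := by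
    intro j i₀ i₁ i₂
    have c0 := hm.closed_continuous i₀
    have c1 := hm.closed_continuous i₁
    have c2 := hm.closed_continuous i₂
    have ca := hm.open_continuous j
    have r0 := Complex.continuous_re.comp_continuousOn c0
    have r1 := Complex.continuous_re.comp_continuousOn c1
    have r2 := Complex.continuous_re.comp_continuousOn c2
    have ra := Complex.continuous_re.comp_continuousOn ca
    have m0 := Complex.continuous_im.comp_continuousOn c0
    have m1 := Complex.continuous_im.comp_continuousOn c1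
    have m2 := Complex.continuous_im.comp_continuousOn c2
    have ma := Complex.continuous_im.comp_continuousOn ca
    simp only [bw, area, cr, Complex.sub_re, Complex.sub_im]
    exact (((r1.sub ra).mul (m2.sub ma)).sub ((m1.sub ma).mul (r2.sub ra))).mul
      (((r1.sub r0).mul (m2.sub m0)).sub ((m1.sub m0).mul (r2.sub r0)))
  have hpos : ∀ j : Fin (k + 1), ∀ t ∈ Icc (0 : ℝ) 1,
      0 < bw (C t 0) (C t 1) (C t 2) (A t j) ∧ 0 < bw (C t 1) (C t 2) (C t 0) (A t j)
        ∧ 0 < bw (C t 2) (C t 0) (C t 1) (A t j) := by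
    intro j t₁ ht₁
    set f : ℝ → ℝ := fun t => min (bw (C t 0) (C t 1) (C t 2) (A t j))
      (min (bw (C t 1) (C t 2) (C t 0) (A t j)) (bw (C t 2) (C t 0) (C t 1) (A t j))) with hf
    have hmin : ∀ f g : ℝ → ℝ, ContinuousOn f (Icc 0 1) → ContinuousOn g (Icc 0 1) →
        ContinuousOn (fun t => min (f t) (g t)) (Icc 0 1) := fun f g hf hg =>
      continuous_min.comp_continuousOn (hf.prodMk hg)
    have hfc : ContinuousOn f (Icc 0 1) :=
      hmin _ _ (hcont j 0 1 2) (hmin _ _ (hcont j 1 2 0) (hcont j 2 0 1))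
    have hf0 : 0 < f 0 := by
      have h0 : (0 : ℝ) ∈ Icc (0 : ℝ) 1 := ⟨le_rfl, zero_le_one⟩
      have hb := bw_hull (hin j)
      rw [← hm.closed_start, ← hm.open_start] at hb
      have := bw_pos (hArea 0 h0) hb.1 hb.2.1 hb.2.2 (hn0 0 h0 j) (hn1 0 h0 j) (hn2 0 h0 j)
      exact lt_min this.1 (lt_min this.2.1 this.2.2)
    have hfpos : 0 < f t₁ := by
      by_contra hneg
      push Not at hneg
      have hsub : Icc (0 : ℝ) t₁ ⊆ Icc 0 1 := Icc_subset_Icc_right ht₁.2
      have := intermediate_value_Icc' ht₁.1 (hfc.mono hsub)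
      obtain ⟨t, ht, hft⟩ := this ⟨hneg, hf0.le⟩
      have ht' := hsub ht
      have h1 : 0 ≤ bw (C t 0) (C t 1) (C t 2) (A t j) := by rw [← hft]; exact min_le_left _ _
      have h2 : 0 ≤ bw (C t 1) (C t 2) (C t 0) (A t j) := by
        rw [← hft]; exact (min_le_right _ _).trans (min_le_left _ _)
      have h3 : 0 ≤ bw (C t 2) (C t 0) (C t 1) (A t j) := by
        rw [← hft]; exact (min_le_right _ _).trans (min_le_right _ _)
      have := bw_pos (hArea t ht') h1 h2 h3 (hn0 t ht' j) (hn1 t ht' j) (hn2 t ht' j)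
      have : 0 < f t := lt_min this.1 (lt_min this.2.1 this.2.2)
      rw [hft] at this
      exact lt_irrefl _ this
    exact ⟨hfpos.trans_le (min_le_left _ _),
      hfpos.trans_le ((min_le_right _ _).trans (min_le_left _ _)),
      hfpos.trans_le ((min_le_right _ _).trans (min_le_right _ _))⟩
  -- the moved chain
  have ht0 : (0 : ℝ) ∈ Icc (0 : ℝ) 1 := ⟨le_rfl, zero_le_one⟩
  have ht1 : (1 : ℝ) ∈ Icc (0 : ℝ) 1 := ⟨zero_le_one, le_rfl⟩
  refine ⟨fun t j => fr (C t 0) (C t 1) (C t 2) (c 0) (c 1) (c 2) (A t j), ?_, ?_, ?_, ?_⟩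
  · intro j
    have hc : ContinuousOn (fun t => ((bw (C t 0) (C t 1) (C t 2) (A t j) : ℂ) * c 0 +
        (bw (C t 1) (C t 2) (C t 0) (A t j) : ℂ) * c 1 +
        (bw (C t 2) (C t 0) (C t 1) (A t j) : ℂ) * c 2) /
        ((area (c 0) (c 1) (c 2) ^ 2 : ℝ) : ℂ)) (Icc 0 1) :=
      ((((Complex.continuous_ofReal.comp_continuousOn (hcont j 0 1 2)).mul
        continuousOn_const).add ((Complex.continuous_ofReal.comp_continuousOn
          (hcont j 1 2 0)).mul continuousOn_const)).add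
        ((Complex.continuous_ofReal.comp_continuousOn (hcont j 2 0 1)).mul
          continuousOn_const)).div_const _
    refine hc.congr fun t ht => ?_
    simp only [fr]
    rw [hAreaSq t ht]
  · funext j
    have hP : ∀ z : ℂ, fr (c 0) (c 1) (c 2) (c 0) (c 1) (c 2) z = z := by
      intro z
      unfold fr
      rw [← bw_smul]
      have hA' : ((area (c 0) (c 1) (c 2) ^ 2 : ℝ) : ℂ) ≠ 0 := by
        exact_mod_cast (pow_ne_zero 2 hA)
      field_simp
    simp only [hm.closed_start, hm.open_start]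
    exact hP _
  · intro t ht
    have hd1 := (e01 t ht).symm
    have hd2 := (e12 t ht).symm
    have hd3 := (e20 t ht).symm
    have hAt := hArea t ht
    have hns := hm.nonSelfIntersecting t ht
    set φ := fr (C t 0) (C t 1) (C t 2) (c 0) (c 1) (c 2) with hφ
    have hinj : Function.Injective φ := fr_injective hAt hd1 hd2 hd3
    have hseg : ∀ u v, segment ℝ (φ u) (φ v) = φ '' segment ℝ u v := fr_segment _ _ _ _ _ _
    have hv := fr_vertex hAt (c 0) (c 1) (c 2)
    have hvert : ∀ i : Fin (0 + 3), φ (C t i) = c i := by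
      intro i
      fin_cases i
      · exact hv.1
      · exact hv.2.1
      · exact hv.2.2
    have hcb : ∀ i, cbar c i = φ '' cbar (C t) i := by
      intro i
      unfold cbar
      rw [← hvert i, ← hvert (i + 1), hseg]
    have hab : ∀ j : Fin k, abar (fun j => φ (A t j)) j = φ '' abar (A t) j := by
      intro j
      exact hseg _ _
    refine ⟨?_, ⟨?_, ?_, ?_, ?_, ?_⟩, ?_⟩
    · intro j
      rw [← hm.open_length t ht j]
      exact fr_dist hAt hd1 hd2 hd3 _ _
    · intro i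
      rw [hcb, hcb, ← Set.image_inter hinj, hns.closed_consecutive, Set.image_singleton, hvert]
    · intro i j h1 h2 h3
      rw [hcb, hcb]
      exact (Set.disjoint_image_iff hinj).2 (hns.closed_other i j h1 h2 h3)
    · intro i j hij
      rw [hab, hab, ← Set.image_inter hinj, hns.open_consecutive i j hij, Set.image_singleton]
    · intro i j hij
      rw [hab, hab]
      exact (Set.disjoint_image_iff hinj).2 (hns.open_other i j hij)
    · intro i j
      rw [hcb, hab]
      exact (Set.disjoint_image_iff hinj).2 (hns.cross i j)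
    · intro j
      have hb := fr_bw hAt (hAreaSq t ht).symm (A t j)
      rw [← hφ] at hb
      rw [hb.1, hb.2.1, hb.2.2]
      exact hpos j t ht
  · obtain ⟨p, u, s, hs, ha⟩ := hst
    set φ := fr (C 1 0) (C 1 1) (C 1 2) (c 0) (c 1) (c 2) with hφ
    refine ⟨φ p, φ (p + u) - φ p, s, hs, fun i => ?_⟩
    have e : A 1 i = (1 - s i) • p + (s i) • (p + u) := by
      rw [ha]
      simp only [Complex.real_smul]
      push_cast
      ring
    change φ (A 1 i) = _
    rw [e, hφ, fr_comb _ _ _ _ _ _ _ _ (by ring)]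
    simp only [Complex.real_smul]
    push_cast
    ring

end Pool.Agent.MP_aff8ab_lc
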