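import Pool.Agent.Work.MP_aff8ab_lc.Tri

open Set

namespace Pool.Agent.MP_aff8ab_lc

/-- The right isosceles triangle with hypotenuse `L` on the real axis. -/
noncomputable def tri (L : ℝ) : Fin (0 + 3) → ℂ := ![0, ⟨L, 0⟩, ⟨L / 2, L / 2⟩]

/-- The open region bounded by the triangle. -/
def region (L : ℝ) : Set ℂ := {z | 0 < z.im ∧ z.im < z.re ∧ z.im < L - z.re}

theorem pos_comb {a b s t : ℝ} (ha : 0 < a) (hb : 0 < b) (hs : 0 ≤ s) (ht : 0 ≤ t)
    (hst : s + t = 1) : 0 < s * a + t * b := by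
  rcases hs.eq_or_lt with rfl | hs'
  · obtain rfl : t = 1 := by linarith
    linarith
  · have := mul_pos hs' ha
    have := mul_nonneg ht hb.le
    linarith

theorem region_convex (L : ℝ) : Convex ℝ (region L) := by
  intro u hu v hv s t hs ht hst
  obtain ⟨u1, u2, u3⟩ := hu
  obtain ⟨v1, v2, v3⟩ := hv
  have h1 := pos_comb u1 v1 hs ht hst
  have h2 := pos_comb (sub_pos.2 u2) (sub_pos.2 v2) hs ht hst
  have h3 := pos_comb (sub_pos.2 u3) (sub_pos.2 v3) hs ht hst
  obtain rfl : t = 1 - s := by linarith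
  refine ⟨?_, ?_, ?_⟩ <;> simp <;> linarith

theorem region_open (L : ℝ) : IsOpen (region L) := by
  have h1 : IsOpen {z : ℂ | 0 < z.im} := isOpen_lt continuous_const Complex.continuous_im
  have h2 : IsOpen {z : ℂ | z.im < z.re} := isOpen_lt Complex.continuous_im Complex.continuous_re
  have h3 : IsOpen {z : ℂ | z.im < L - z.re} :=
    isOpen_lt Complex.continuous_im (continuous_const.sub Complex.continuous_re)
  exact h1.inter (h2.inter h3)

theorem region_subset {L : ℝ} (hL : 0 < L) :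
    region L ⊆ interior (convexHull ℝ (range (tri L))) := by
  refine interior_maximal ?_ (region_open L)
  rintro z ⟨h1, h2, h3⟩
  have hz : z = ∑ i : Fin 3, (![(L - z.re - z.im) / L, (z.re - z.im) / L, 2 * z.im / L] : Fin 3 → ℝ) i
      • tri L i := by
    rw [Fin.sum_univ_three]
    apply Complex.ext
    · simp [tri]
      field_simp
      ring
    · simp [tri]
      field_simp
  rw [hz]
  refine (convex_convexHull ℝ _).sum_mem ?_ ?_ ?_
  · intro i _
    fin_cases i
    · show 0 ≤ (L - z.re - z.im) / L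
      apply div_nonneg <;> linarith
    · show 0 ≤ (z.re - z.im) / L
      apply div_nonneg <;> linarith
    · show 0 ≤ 2 * z.im / L
      apply div_nonneg <;> linarith
  · rw [Fin.sum_univ_three]
    show (L - z.re - z.im) / L + (z.re - z.im) / L + 2 * z.im / L = 1
    field_simp
    ring
  · intro i _
    exact subset_convexHull ℝ _ (mem_range_self _)

theorem cr_of_mem {P Q z : ℂ} (h : z ∈ segment ℝ P Q) : cr (P - z) (Q - z) = 0 := by
  obtain ⟨a, b, ha, hb, hab, rfl⟩ := h
  obtain rfl : a = 1 - b := by linarith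
  simp [cr]
  ring

theorem seg_inter {P Q R : ℂ} (hA : area P Q R ≠ 0) :
    segment ℝ P Q ∩ segment ℝ Q R = {Q} := by
  ext z
  constructor
  · rintro ⟨h1, h2⟩
    have c1 := cr_of_mem h1
    have c2 := cr_of_mem h2
    have e1 := area_eq P Q R z
    have e2 := area_smul P Q R z
    rw [c1, c2] at e1 e2
    have e3 : cr (R - z) (P - z) = area P Q R := by linarith
    rw [e3] at e2
    have hA' : (area P Q R : ℂ) ≠ 0 := by exact_mod_cast hA
    have : (area P Q R : ℂ) * z = area P Q R * Q := by rw [e2]; simp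
    exact mul_left_cancel₀ hA' this
  · rintro rfl
    exact ⟨right_mem_segment ℝ _ _, left_mem_segment ℝ _ _⟩

theorem area_tri {L : ℝ} (i : Fin (0 + 3)) :
    area (tri L i) (tri L (i + 1)) (tri L (i + 1 + 1)) = L ^ 2 / 2 := by
  fin_cases i
  · show area 0 ⟨L, 0⟩ ⟨L / 2, L / 2⟩ = L ^ 2 / 2
    simp [area, cr]; ring
  · show area ⟨L, 0⟩ ⟨L / 2, L / 2⟩ 0 = L ^ 2 / 2
    simp [area, cr]; ring
  · show area ⟨L / 2, L / 2⟩ 0 ⟨L, 0⟩ = L ^ 2 / 2
    simp [area, cr]; ring

theorem area_tri_ne {L : ℝ} (hL : 0 < L) (i : Fin (0 + 3)) :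
    area (tri L i) (tri L (i + 1)) (tri L (i + 1 + 1)) ≠ 0 := by
  rw [area_tri]; positivity

theorem tri_convex {L : ℝ} (hL : 0 < L) : IsConvexPolygon (tri L) := by
  left
  intro i j h1 h2
  have h : ∀ i j : Fin (0 + 3), j ≠ i → j ≠ i + 1 → j = i + 1 + 1 := by decide
  obtain rfl := h i j h1 h2
  have := area_tri (L := L) i
  rw [area] at this
  rw [this]; positivity

theorem tri_side {L : ℝ} (i : Fin (0 + 3)) {z : ℂ} (hz : z ∈ cbar (tri L) i) : z ∉ region L := by
  rintro ⟨h1, h2, h3⟩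
  obtain ⟨a, b, ha, hb, hab, rfl⟩ := hz
  obtain rfl : a = 1 - b := by linarith
  fin_cases i
  · have e : (1 - b) • tri L 0 + b • tri L (0 + 1) = ⟨b * L, 0⟩ := by
      show (1 - b) • (0 : ℂ) + b • (⟨L, 0⟩ : ℂ) = _
      apply Complex.ext <;> simp
    change 0 < ((1 - b) • tri L 0 + b • tri L (0 + 1)).im at h1
    rw [e] at h1
    exact lt_irrefl _ h1
  · have e : (1 - b) • tri L 1 + b • tri L (1 + 1) = ⟨L - b * (L / 2), b * (L / 2)⟩ := by
      show (1 - b) • (⟨L, 0⟩ : ℂ) + b • (⟨L / 2, L / 2⟩ : ℂ) = _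
      apply Complex.ext <;> simp
      ring
    change ((1 - b) • tri L 1 + b • tri L (1 + 1)).im
      < L - ((1 - b) • tri L 1 + b • tri L (1 + 1)).re at h3
    rw [e] at h3
    simp at h3
  · have e : (1 - b) • tri L 2 + b • tri L (2 + 1) = ⟨(1 - b) * (L / 2), (1 - b) * (L / 2)⟩ := by
      show (1 - b) • (⟨L / 2, L / 2⟩ : ℂ) + b • (0 : ℂ) = _
      apply Complex.ext <;> simp
    change ((1 - b) • tri L 2 + b • tri L (2 + 1)).im
      < ((1 - b) • tri L 2 + b • tri L (2 + 1)).re at h2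
    rw [e] at h2
    exact lt_irrefl _ h2

theorem seg_re {u v z : ℂ} (huv : u.re < v.re) (hz : z ∈ segment ℝ u v) :
    u.re ≤ z.re ∧ z.re ≤ v.re ∧ (z.re = v.re → z = v) ∧ (z.re = u.re → z = u) := by
  obtain ⟨a, b, ha, hb, hab, rfl⟩ := hz
  obtain rfl : a = 1 - b := by linarith
  have e : ((1 - b) • u + b • v).re = u.re + b * (v.re - u.re) := by simp; ring
  have e' : ((1 - b) • u + b • v).re = v.re - (1 - b) * (v.re - u.re) := by simp; ring
  have hd : 0 < v.re - u.re := by linarith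
  refine ⟨?_, ?_, ?_, ?_⟩
  · rw [e]; have := mul_nonneg hb hd.le; linarith
  · rw [e']; have := mul_nonneg ha hd.le; linarith
  · intro h
    rw [e'] at h
    have : (1 - b) * (v.re - u.re) = 0 := by linarith
    have hb1 : 1 - b = 0 := by
      rcases mul_eq_zero.1 this with h | h
      · exact h
      · exact absurd h hd.ne'
    obtain rfl : b = 1 := by linarith
    simp
  · intro h
    rw [e] at h
    have : b * (v.re - u.re) = 0 := by linarith
    have hb1 : b = 0 := by
      rcases mul_eq_zero.1 this with h | h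
      · exact h
      · exact absurd h hd.ne'
    subst hb1
    simp

theorem nonSelfIntersecting_of {L : ℝ} (hL : 0 < L) {K : ℕ} {a : Fin (K + 1) → ℂ}
    (hmono : StrictMono fun i => (a i).re) (hreg : ∀ i, a i ∈ region L) :
    NonSelfIntersecting (tri L) a where
  closed_consecutive i := seg_inter (area_tri_ne hL i)
  closed_other i j h1 h2 h3 := by
    exfalso
    revert i j
    decide
  open_consecutive i j hij := by
    have hs : j.castSucc = i.succ := by
      apply Fin.ext; simp [hij]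
    have h1 : (a i.castSucc).re < (a i.succ).re := hmono Fin.castSucc_lt_succ
    have h2 : (a j.castSucc).re < (a j.succ).re := hmono Fin.castSucc_lt_succ
    ext z
    constructor
    · rintro ⟨hz1, hz2⟩
      have r1 := seg_re h1 hz1
      have r2 := seg_re h2 hz2
      rw [hs] at r2
      exact r1.2.2.1 (le_antisymm r1.2.1 r2.1)
    · rintro rfl
      refine ⟨right_mem_segment ℝ _ _, ?_⟩
      unfold abar
      rw [hs]
      exact left_mem_segment ℝ _ _
  open_other i j hij := by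
    have h1 : (a i.castSucc).re < (a i.succ).re := hmono Fin.castSucc_lt_succ
    have h2 : (a j.castSucc).re < (a j.succ).re := hmono Fin.castSucc_lt_succ
    have h3 : (a i.succ).re < (a j.castSucc).re := hmono (by
      rw [Fin.lt_def]; simpa using hij)
    rw [Set.disjoint_left]
    intro z hz1 hz2
    have r1 := (seg_re h1 hz1).2.1
    have r2 := (seg_re h2 hz2).1
    linarith
  cross i j := by
    rw [Set.disjoint_left]
    intro z hz1 hz2
    exact tri_side i hz1 ((region_convex L).segment_subset (hreg _) (hreg _) hz2)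

/-! ### The motion -/

/-- Horizontal extent of bar `i` when its vertical extent is scaled by `l`. -/
noncomputable def inc (p q : ℕ → ℝ) (l : ℝ) (i : ℕ) : ℝ := √(p i ^ 2 + q i ^ 2 - (l * q i) ^ 2)

/-- Vertex `j` when the vertical extents are scaled by `l`; `N + 1` bars. -/
noncomputable def vx (L x₀ : ℝ) (p q : ℕ → ℝ) (N : ℕ) (l : ℝ) (j : ℕ) : ℂ :=
  ⟨(L - ∑ i ∈ Finset.range (N + 1), inc p q l i) / 2 + ∑ i ∈ Finset.range j, inc p q l i,
    (L - ∑ i ∈ Finset.range (N + 1), inc p q l i) / 2 / (2 * x₀)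
      + l * ∑ i ∈ Finset.range j, q i⟩

section
variable {L x₀ : ℝ} {p q : ℕ → ℝ} {N : ℕ}

theorem inc_sq_nonneg {l : ℝ} (hl : l ∈ Icc (0 : ℝ) 1) (i : ℕ) :
    0 ≤ q i ^ 2 - (l * q i) ^ 2 := by
  have h1 : l ^ 2 ≤ 1 := by nlinarith [hl.1, hl.2]
  nlinarith [mul_nonneg (sq_nonneg (q i)) (sub_nonneg.2 h1)]

theorem inc_pos {l : ℝ} (hl : l ∈ Icc (0 : ℝ) 1) {i : ℕ} (hp : 0 < p i) : 0 < inc p q l i := by
  apply Real.sqrt_pos.2
  have := inc_sq_nonneg (q := q) hl i
  have := sq_pos_of_pos hp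
  linarith

theorem inc_nonneg (l : ℝ) (i : ℕ) : 0 ≤ inc p q l i := Real.sqrt_nonneg _

theorem inc_le (l : ℝ) (i : ℕ) : inc p q l i ≤ √(p i ^ 2 + q i ^ 2) :=
  Real.sqrt_le_sqrt (by have := sq_nonneg (l * q i); linarith)

theorem inc_flat {l : ℝ} {i : ℕ} (hp : 0 ≤ p i) (hq : q i = 0) : inc p q l i = p i := by
  rw [inc, hq]; simp [Real.sqrt_sq hp]

theorem inc_one {i : ℕ} (hp : 0 ≤ p i) : inc p q 1 i = p i := by
  rw [inc]
  have : p i ^ 2 + q i ^ 2 - (1 * q i) ^ 2 = p i ^ 2 := by ring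
  rw [this, Real.sqrt_sq hp]

theorem vx_region {l : ℝ} (hl : l ∈ Icc (0 : ℝ) 1) (hp : ∀ i < N + 1, 0 < p i)
    (hH : ∀ j, j ≤ N + 1 → 0 ≤ ∑ i ∈ Finset.range j, q i ∧
      ∑ i ∈ Finset.range j, q i ≤ p 0 ∧ ∑ i ∈ Finset.range j, q i ≤ p N)
    (hlast : ∑ i ∈ Finset.range (N + 1), q i = 0) (hq0 : q 0 = 0) (hqN : q N = 0)
    (hx : 1 ≤ x₀) (hlen : ∑ i ∈ Finset.range (N + 1), inc p q l i < L)
    {j : ℕ} (hj : j ≤ N + 1) : vx L x₀ p q N l j ∈ region L := by
  set G := (L - ∑ i ∈ Finset.range (N + 1), inc p q l i) / 2 with hG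
  have hGpos : 0 < G := by
    rw [hG]; linarith
  have hh0 : 0 < G / (2 * x₀) := by positivity
  have hh1 : G / (2 * x₀) < G := by
    rw [div_lt_iff₀ (by positivity)]
    nlinarith
  obtain ⟨H0, H1, H2⟩ := hH j hj
  have hv : vx L x₀ p q N l j = ⟨G + ∑ i ∈ Finset.range j, inc p q l i,
    G / (2 * x₀) + l * ∑ i ∈ Finset.range j, q i⟩ := rfl
  rw [hv]
  set H := ∑ i ∈ Finset.range j, q i with hHdef
  have hlH0 : 0 ≤ l * H := mul_nonneg hl.1 H0
  have hlH : l * H ≤ H := mul_le_of_le_one_left H0 hl.2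
  refine ⟨?_, ?_, ?_⟩
  · show 0 < G / (2 * x₀) + l * H
    linarith
  · show G / (2 * x₀) + l * H < G + ∑ i ∈ Finset.range j, inc p q l i
    rcases Nat.eq_zero_or_pos j with rfl | hj0
    · simp only [Finset.range_zero, Finset.sum_empty] at hHdef ⊢
      rw [hHdef]; linarith
    · have : inc p q l 0 ≤ ∑ i ∈ Finset.range j, inc p q l i :=
        Finset.single_le_sum (f := fun i => inc p q l i) (fun i _ => inc_nonneg l i)
          (Finset.mem_range.2 hj0)
      rw [inc_flat (hp 0 (by omega)).le hq0] at this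
      linarith
  · show G / (2 * x₀) + l * H < L - (G + ∑ i ∈ Finset.range j, inc p q l i)
    have e : L - (G + ∑ i ∈ Finset.range j, inc p q l i)
        = G + (∑ i ∈ Finset.range (N + 1), inc p q l i - ∑ i ∈ Finset.range j, inc p q l i) := by
      rw [hG]; ring
    rw [e]
    rcases Nat.lt_or_ge N j with hj1 | hj1
    · obtain rfl : j = N + 1 := by omega
      rw [sub_self, hHdef, hlast]; linarith
    · have h1 : ∑ i ∈ Finset.range j, inc p q l i ≤ ∑ i ∈ Finset.range N, inc p q l i :=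
        Finset.sum_le_sum_of_subset_of_nonneg (Finset.range_mono hj1)
          (fun i _ _ => inc_nonneg l i)
      rw [Finset.sum_range_succ, inc_flat (hp N (by omega)).le hqN]
      linarith

theorem vx_mono {l : ℝ} (hl : l ∈ Icc (0 : ℝ) 1) (hp : ∀ i < N + 1, 0 < p i) :
    StrictMono fun j : Fin (N + 1 + 1) => (vx L x₀ p q N l j).re := by
  rw [Fin.strictMono_iff_lt_succ]
  intro i
  show _ + ∑ r ∈ Finset.range (i : ℕ), inc p q l r < _ + ∑ r ∈ Finset.range (i + 1 : ℕ), inc p q l r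
  rw [Finset.sum_range_succ _ (i : ℕ)]
  have := inc_pos (q := q) hl (hp i i.2)
  linarith

theorem dist_vx {l : ℝ} (hl : l ∈ Icc (0 : ℝ) 1) (j : ℕ) :
    dist (vx L x₀ p q N l j) (vx L x₀ p q N l (j + 1)) = √(p j ^ 2 + q j ^ 2) := by
  rw [Complex.dist_eq_re_im]
  congr 1
  simp only [vx, Finset.sum_range_succ _ j]
  have h : inc p q l j ^ 2 = p j ^ 2 + q j ^ 2 - (l * q j) ^ 2 := by
    rw [inc, Real.sq_sqrt]
    have := inc_sq_nonneg (q := q) hl j
    have := sq_nonneg (p j)
    linarith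
  linear_combination h

/-- **Sufficiency.** -/
theorem canStraighten_of (hp : ∀ i < N + 1, 0 < p i)
    (hH : ∀ j, j ≤ N + 1 → 0 ≤ ∑ i ∈ Finset.range j, q i ∧
      ∑ i ∈ Finset.range j, q i ≤ p 0 ∧ ∑ i ∈ Finset.range j, q i ≤ p N)
    (hlast : ∑ i ∈ Finset.range (N + 1), q i = 0) (hq0 : q 0 = 0) (hqN : q N = 0)
    (hx : 1 ≤ x₀) (hlen : ∑ i ∈ Finset.range (N + 1), √(p i ^ 2 + q i ^ 2) < L) :
    CanStraighten (tri L) (fun j : Fin (N + 1 + 1) => vx L x₀ p q N 1 j) := by
  have hL : 0 < L := by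
    refine lt_of_le_of_lt ?_ hlen
    exact Finset.sum_nonneg fun i _ => Real.sqrt_nonneg _
  have hl : ∀ t ∈ Icc (0 : ℝ) 1, 1 - t ∈ Icc (0 : ℝ) 1 := fun t ht =>
    ⟨by linarith [ht.2], by linarith [ht.1]⟩
  refine ⟨fun _ => tri L, fun t j => vx L x₀ p q N (1 - t) j, ⟨?_, ?_, ?_, ?_, ?_, ?_, ?_⟩, ?_⟩
  · intro i; exact continuousOn_const
  · intro j
    apply Continuous.continuousOn
    have hinc : ∀ i, Continuous fun t : ℝ => inc p q (1 - t) i := by
      intro i
      unfold inc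
      fun_prop
    have hs : ∀ n : ℕ, Continuous fun t : ℝ => ∑ i ∈ Finset.range n, inc p q (1 - t) i :=
      fun n => continuous_finsetSum _ fun i _ => hinc i
    have h1 := hs (N + 1)
    have h2 := hs j
    have e : (fun t : ℝ => vx L x₀ p q N (1 - t) j) = fun t =>
        (((L - ∑ i ∈ Finset.range (N + 1), inc p q (1 - t) i) / 2
          + ∑ i ∈ Finset.range j, inc p q (1 - t) i : ℝ) : ℂ)
        + (((L - ∑ i ∈ Finset.range (N + 1), inc p q (1 - t) i) / 2 / (2 * x₀)
          + (1 - t) * ∑ i ∈ Finset.range j, q i : ℝ) : ℂ) * Complex.I := by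
      funext t
      apply Complex.ext <;>
      simp only [vx, Complex.add_re, Complex.add_im, Complex.mul_re, Complex.mul_im,
        Complex.ofReal_re, Complex.ofReal_im, Complex.I_re, Complex.I_im] <;> ring
    rw [e]
    refine (Complex.continuous_ofReal.comp (((continuous_const.sub h1).div_const 2).add h2)).add
      ((Complex.continuous_ofReal.comp ?_).mul continuous_const)
    exact (((continuous_const.sub h1).div_const 2).div_const _).add
      ((continuous_const.sub continuous_id).mul continuous_const)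
  · intro t _ i; rfl
  · intro t ht j
    have h1 : (1 : ℝ) ∈ Icc (0 : ℝ) 1 := ⟨zero_le_one, le_rfl⟩
    have := dist_vx (L := L) (x₀ := x₀) (p := p) (q := q) (N := N) (hl t ht) j
    have h' := dist_vx (L := L) (x₀ := x₀) (p := p) (q := q) (N := N) h1 j
    simpa using this.trans h'.symm
  · intro t ht
    exact nonSelfIntersecting_of hL (vx_mono (hl t ht) hp)
      (fun j => vx_region (hl t ht) hp hH hlast hq0 hqN hx
        ((Finset.sum_le_sum fun i _ => inc_le (1 - t) i).trans_lt hlen) (Nat.lt_succ_iff.1 j.2))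
  · rfl
  · funext j; simp
  · refine ⟨⟨(L - ∑ i ∈ Finset.range (N + 1), inc p q 0 i) / 2,
      (L - ∑ i ∈ Finset.range (N + 1), inc p q 0 i) / 2 / (2 * x₀)⟩, 1,
      fun j => ∑ i ∈ Finset.range (j : ℕ), inc p q 0 i, ?_, ?_⟩
    · have := vx_mono (L := L) (x₀ := x₀) (p := p) (q := q) (N := N) (l := 0)
        ⟨le_rfl, zero_le_one⟩ hp
      intro i j hij
      have := this hij
      simpa [vx] using this
    · intro j
      apply Complex.ext <;> simp [vx]

end

end Pool.Agent.MP_aff8ab_lc
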