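import Pool.Agent.Work.MP_aff8ab_lc.Defs

open Set

namespace Pool.Agent.MP_aff8ab_lc

/-- The area determinant of a triangle. -/
def area (P Q R : ℂ) : ℝ := cr (Q - P) (R - P)

theorem area_sq (P Q R : ℂ) : area P Q R ^ 2 =
    dist P Q ^ 2 * dist R P ^ 2 - ((dist P Q ^ 2 + dist R P ^ 2 - dist Q R ^ 2) / 2) ^ 2 := by
  have h : ∀ z w : ℂ, dist z w ^ 2 = (z.re - w.re) ^ 2 + (z.im - w.im) ^ 2 := by
    intro z w
    rw [Complex.dist_eq_re_im, Real.sq_sqrt (by positivity)]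
  rw [h, h, h]
  simp only [area, cr, Complex.sub_re, Complex.sub_im]
  ring

theorem area_eq (P Q R z : ℂ) :
    cr (Q - z) (R - z) + cr (R - z) (P - z) + cr (P - z) (Q - z) = area P Q R := by
  simp only [area, cr, Complex.sub_re, Complex.sub_im]; ring

theorem area_smul (P Q R z : ℂ) :
    (area P Q R : ℂ) * z = (cr (Q - z) (R - z) : ℂ) * P + (cr (R - z) (P - z) : ℂ) * Q
      + (cr (P - z) (Q - z) : ℂ) * R := by
  apply Complex.ext <;>
  · simp only [area, cr, Complex.mul_re, Complex.mul_im, Complex.add_re, Complex.add_im,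
      Complex.ofReal_re, Complex.ofReal_im, Complex.sub_re, Complex.sub_im]
    ring

theorem mem_segment_of {Q R z : ℂ} {s b₁ b₂ : ℝ} (hs : 0 < s) (hb₁ : 0 ≤ b₁) (hb₂ : 0 ≤ b₂)
    (hsum : b₁ + b₂ = s) (hz : (s : ℂ) * z = (b₁ : ℂ) * Q + (b₂ : ℂ) * R) :
    z ∈ segment ℝ Q R := by
  refine ⟨b₁ / s, b₂ / s, by positivity, by positivity, ?_, ?_⟩
  · rw [← add_div, hsum, div_self hs.ne']
  · have hs' : (s : ℂ) ≠ 0 := by exact_mod_cast hs.ne'
    rw [Complex.real_smul, Complex.real_smul]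
    push_cast
    field_simp
    linear_combination -hz

/-- Weighted barycentric coordinates, made positive inside by the factor `area`. -/
def bw (P Q R z : ℂ) : ℝ := cr (Q - z) (R - z) * area P Q R

theorem area_rot (P Q R : ℂ) : area Q R P = area P Q R := by
  simp only [area, cr, Complex.sub_re, Complex.sub_im]; ring

theorem area_rot' (P Q R : ℂ) : area R P Q = area P Q R := by
  simp only [area, cr, Complex.sub_re, Complex.sub_im]; ring

theorem bw_smul (P Q R z : ℂ) :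
    ((area P Q R ^ 2 : ℝ) : ℂ) * z = (bw P Q R z : ℂ) * P + (bw Q R P z : ℂ) * Q
      + (bw R P Q z : ℂ) * R := by
  have h := area_smul P Q R z
  have h1 := area_rot P Q R
  have h2 := area_rot' P Q R
  unfold bw
  rw [h1, h2]
  push_cast
  linear_combination (area P Q R : ℂ) * h

theorem bw_sum' (P Q R z : ℂ) : bw P Q R z + bw Q R P z + bw R P Q z = area P Q R ^ 2 := by
  have h1 := area_rot P Q R
  have h2 := area_rot' P Q R
  have h := area_eq P Q R z
  unfold bw
  rw [h1, h2]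
  linear_combination area P Q R * h

/-- If the first coordinate vanishes and the others are nonnegative, the point is on a side. -/
theorem mem_side {P Q R z : ℂ} (hA : area P Q R ≠ 0) (h₀ : bw P Q R z = 0)
    (h₁ : 0 ≤ bw Q R P z) (h₂ : 0 ≤ bw R P Q z) : z ∈ segment ℝ Q R := by
  refine mem_segment_of (s := area P Q R ^ 2) (by positivity) h₁ h₂ ?_ ?_
  · have := bw_sum' P Q R z
    linarith
  · have := bw_smul P Q R z
    rw [this, h₀]; simp

theorem bw_convex (P Q R : ℂ) : Convex ℝ {z | 0 ≤ bw P Q R z} := by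
  intro u hu v hv s t hs ht hst
  have hu : 0 ≤ bw P Q R u := hu
  have hv : 0 ≤ bw P Q R v := hv
  show 0 ≤ bw P Q R (s • u + t • v)
  have : bw P Q R (s • u + t • v) = s * bw P Q R u + t * bw P Q R v := by
    obtain rfl : t = 1 - s := by linarith
    simp only [bw, cr, Complex.real_smul, Complex.sub_re, Complex.sub_im, Complex.add_re,
      Complex.add_im, Complex.mul_re, Complex.mul_im, Complex.ofReal_re, Complex.ofReal_im]
    ring
  rw [this]
  positivity

theorem bw_hull {c : Fin (0 + 3) → ℂ} {z : ℂ} (hz : z ∈ convexHull ℝ (range c)) :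
    0 ≤ bw (c 0) (c 1) (c 2) z ∧ 0 ≤ bw (c 1) (c 2) (c 0) z ∧ 0 ≤ bw (c 2) (c 0) (c 1) z := by
  have key : ∀ P Q R : ℂ, (range c ⊆ {P, Q, R}) → 0 ≤ bw P Q R z := by
    intro P Q R h
    refine convexHull_min ?_ (bw_convex P Q R) hz
    intro w hw
    rcases h hw with rfl | rfl | rfl
    · show 0 ≤ bw _ _ _ _
      simp only [bw, area]
      exact mul_self_nonneg _
    · show 0 ≤ bw _ _ _ _
      simp [bw, cr]
    · show 0 ≤ bw _ _ _ _
      simp [bw, cr]
  have hr : range c ⊆ {c 0, c 1, c 2} := by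
    rintro _ ⟨i, rfl⟩
    fin_cases i <;> simp
  refine ⟨key _ _ _ hr, key _ _ _ ?_, key _ _ _ ?_⟩
  · intro w hw; rcases hr hw with h | h | h <;> simp_all
  · intro w hw; rcases hr hw with h | h | h <;> simp_all

theorem bw_pos {P Q R z : ℂ} (hA : area P Q R ≠ 0)
    (h₀ : 0 ≤ bw P Q R z) (h₁ : 0 ≤ bw Q R P z) (h₂ : 0 ≤ bw R P Q z)
    (n₀ : z ∉ segment ℝ Q R) (n₁ : z ∉ segment ℝ R P) (n₂ : z ∉ segment ℝ P Q) :
    0 < bw P Q R z ∧ 0 < bw Q R P z ∧ 0 < bw R P Q z := by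
  have hA₁ : area Q R P ≠ 0 := by rw [area_rot P Q R]; exact hA
  have hA₂ : area R P Q ≠ 0 := by rw [area_rot' P Q R]; exact hA
  refine ⟨lt_of_le_of_ne h₀ fun h => n₀ (mem_side hA h.symm h₁ h₂),
    lt_of_le_of_ne h₁ fun h => n₁ (mem_side hA₁ h.symm h₂ h₀),
    lt_of_le_of_ne h₂ fun h => n₂ (mem_side hA₂ h.symm h₀ h₁)⟩

/-- Two points with positive barycentric coordinates are closer than the longest side. -/
theorem dist_lt {P Q R z w : ℂ} {D : ℝ} (hA : area P Q R ≠ 0)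
    (hz₀ : 0 < bw P Q R z) (hz₁ : 0 < bw Q R P z) (hz₂ : 0 < bw R P Q z)
    (hw₀ : 0 < bw P Q R w) (hw₁ : 0 < bw Q R P w) (hw₂ : 0 < bw R P Q w)
    (hPQ : dist P Q ≤ D) (hQR : dist Q R ≤ D) (hRP : dist R P ≤ D) (hD : 0 < D) :
    dist z w < D := by
  set S := area P Q R ^ 2 with hS
  have hSpos : 0 < S := by positivity
  have hz := bw_smul P Q R z
  have hw := bw_smul P Q R w
  have sz := bw_sum' P Q R z
  have sw := bw_sum' P Q R w
  rw [← hS] at hz hw sz sw
  set x₀ := bw P Q R z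
  set x₁ := bw Q R P z
  set x₂ := bw R P Q z
  set y₀ := bw P Q R w
  set y₁ := bw Q R P w
  set y₂ := bw R P Q w
  have key : ((S * S : ℝ) : ℂ) * (z - w) =
      ((x₀ * y₁ : ℝ) : ℂ) * (P - Q) + ((x₁ * y₀ : ℝ) : ℂ) * (Q - P)
      + ((x₁ * y₂ : ℝ) : ℂ) * (Q - R) + ((x₂ * y₁ : ℝ) : ℂ) * (R - Q)
      + ((x₂ * y₀ : ℝ) : ℂ) * (R - P) + ((x₀ * y₂ : ℝ) : ℂ) * (P - R) := by
    have e1 : ((S * S : ℝ) : ℂ) * (z - w) = (S : ℂ) * ((S : ℂ) * z) - (S : ℂ) * ((S : ℂ) * w) := by
      push_cast; ring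
    rw [e1, hz, hw]
    have c1 : (S : ℂ) = y₀ + y₁ + y₂ := by rw [← sw]; push_cast; ring
    have c2 : (S : ℂ) = x₀ + x₁ + x₂ := by rw [← sz]; push_cast; ring
    have e2 : (S : ℂ) * ((x₀ : ℂ) * P + x₁ * Q + x₂ * R) - S * ((y₀ : ℂ) * P + y₁ * Q + y₂ * R)
        = (y₀ + y₁ + y₂) * ((x₀ : ℂ) * P + x₁ * Q + x₂ * R)
          - (x₀ + x₁ + x₂) * ((y₀ : ℂ) * P + y₁ * Q + y₂ * R) := by
      rw [← c1, ← c2]
    rw [e2]
    push_cast
    ring
  have hn : ∀ (r : ℝ) (hr : 0 < r) (v v' : ℂ), dist v v' ≤ D → ‖(r : ℂ) * (v - v')‖ ≤ r * D := by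
    intro r hr v v' hv
    rw [norm_mul, Complex.norm_real, Real.norm_of_nonneg hr.le, ← Complex.dist_eq]
    exact mul_le_mul_of_nonneg_left hv hr.le
  have hb : ‖((S * S : ℝ) : ℂ) * (z - w)‖ ≤ x₀ * y₁ * D + x₁ * y₀ * D + x₁ * y₂ * D
      + x₂ * y₁ * D + x₂ * y₀ * D + x₀ * y₂ * D := by
    rw [key]
    refine (norm_add_le _ _).trans (add_le_add ?_ (hn _ (by positivity) _ _ (by rwa [dist_comm])))
    refine (norm_add_le _ _).trans (add_le_add ?_ (hn _ (by positivity) _ _ hRP))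
    refine (norm_add_le _ _).trans (add_le_add ?_ (hn _ (by positivity) _ _ (by rwa [dist_comm])))
    refine (norm_add_le _ _).trans (add_le_add ?_ (hn _ (by positivity) _ _ hQR))
    refine (norm_add_le _ _).trans (add_le_add (hn _ (by positivity) _ _ hPQ)
      (hn _ (by positivity) _ _ (by rwa [dist_comm])))
  rw [norm_mul, Complex.norm_real, Real.norm_of_nonneg (by positivity), ← Complex.dist_eq] at hb
  have hlt : S * S * dist z w < S * S * D := by
    refine hb.trans_lt ?_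
    have : S * S * D = (x₀ + x₁ + x₂) * (y₀ + y₁ + y₂) * D := by rw [sz, sw]
    rw [this]
    have : 0 < (x₀ * y₀ + x₁ * y₁ + x₂ * y₂) * D := by positivity
    nlinarith
  exact lt_of_mul_lt_mul_left hlt (by positivity)

theorem sum_sub_succ : ∀ {k : ℕ} (s : Fin (k + 1) → ℝ),
    ∑ j : Fin k, (s j.succ - s j.castSucc) = s (Fin.last k) - s 0
  | 0, s => by simp
  | k + 1, s => by
      rw [Fin.sum_univ_castSucc]
      have := sum_sub_succ (fun i : Fin (k + 1) => s i.castSucc)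
      simp only [Fin.castSucc_zero] at this
      have e : ∑ x : Fin k, (s x.castSucc.succ - s x.castSucc.castSucc)
          = s (Fin.last k).castSucc - s 0 := by
        rw [← this]
        rfl
      rw [e]
      simp

theorem straight_dist {k : ℕ} {a : Fin (k + 1) → ℂ} (h : Straight a) :
    ∑ j : Fin k, dist (a j.castSucc) (a j.succ) = dist (a 0) (a (Fin.last k)) := by
  obtain ⟨p, u, s, hs, ha⟩ := h
  have hd : ∀ i j, i ≤ j → dist (a i) (a j) = (s j - s i) * ‖u‖ := by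
    intro i j hij
    rw [dist_comm, Complex.dist_eq, ha, ha]
    have : p + (s j : ℂ) * u - (p + (s i : ℂ) * u) = ((s j - s i : ℝ) : ℂ) * u := by
      push_cast; ring
    rw [this, norm_mul, Complex.norm_real, Real.norm_of_nonneg]
    have := hs.monotone hij
    linarith
  rw [hd _ _ (Fin.zero_le _), ← sum_sub_succ, Finset.sum_mul]
  refine Finset.sum_congr rfl fun j _ => ?_
  exact hd _ _ (Fin.castSucc_le_succ j)

/-- **Necessity**: inside a triangle only chains shorter than the longest side can be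
straightened. -/
theorem length_lt {k : ℕ} {c : Fin (0 + 3) → ℂ} {a : Fin (k + 1) → ℂ} {D : ℝ} (hk : 0 < k)
    (hA : area (c 0) (c 1) (c 2) ≠ 0) (hin : ∀ j, a j ∈ convexHull ℝ (range c))
    (h01 : dist (c 0) (c 1) ≤ D) (h12 : dist (c 1) (c 2) ≤ D) (h20 : dist (c 2) (c 0) ≤ D)
    (hD : 0 < D) (h : CanStraighten c a) :
    ∑ j : Fin k, dist (a j.castSucc) (a j.succ) < D := by
  obtain ⟨C, A, hm, hst⟩ := h
  have e01 : ∀ t ∈ Icc (0 : ℝ) 1, dist (C t 0) (C t 1) = dist (c 0) (c 1) :=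
    fun t ht => hm.closed_length t ht 0
  have e12 : ∀ t ∈ Icc (0 : ℝ) 1, dist (C t 1) (C t 2) = dist (c 1) (c 2) :=
    fun t ht => hm.closed_length t ht 1
  have e20 : ∀ t ∈ Icc (0 : ℝ) 1, dist (C t 2) (C t 0) = dist (c 2) (c 0) :=
    fun t ht => hm.closed_length t ht 2
  have hArea : ∀ t ∈ Icc (0 : ℝ) 1, area (C t 0) (C t 1) (C t 2) ≠ 0 := by
    intro t ht h0
    have := area_sq (C t 0) (C t 1) (C t 2)
    rw [e01 t ht, e12 t ht, e20 t ht, ← area_sq, h0] at this
    have h2 : area (c 0) (c 1) (c 2) ^ 2 = 0 := by rw [← this]; ring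
    exact hA (pow_eq_zero_iff (two_ne_zero) |>.1 h2)
  have hno : ∀ t ∈ Icc (0 : ℝ) 1, ∀ j : Fin (k + 1), ∀ i, A t j ∉ cbar (C t) i := by
    intro t ht j i hmem
    have hns := hm.nonSelfIntersecting t ht
    induction j using Fin.cases with
    | zero =>
      have h1 : A t 0 ∈ abar (A t) ⟨0, hk⟩ := by
        have : (0 : Fin (k + 1)) = Fin.castSucc ⟨0, hk⟩ := rfl
        rw [this]
        exact left_mem_segment ℝ _ _
      exact Set.disjoint_left.1 (hns.cross i ⟨0, hk⟩) hmem h1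
    | succ j =>
      exact Set.disjoint_left.1 (hns.cross i j) hmem (right_mem_segment ℝ _ _)
  have hn0 : ∀ t ∈ Icc (0 : ℝ) 1, ∀ j : Fin (k + 1), A t j ∉ segment ℝ (C t 1) (C t 2) :=
    fun t ht j => hno t ht j 1
  have hn1 : ∀ t ∈ Icc (0 : ℝ) 1, ∀ j : Fin (k + 1), A t j ∉ segment ℝ (C t 2) (C t 0) :=
    fun t ht j => hno t ht j 2
  have hn2 : ∀ t ∈ Icc (0 : ℝ) 1, ∀ j : Fin (k + 1), A t j ∉ segment ℝ (C t 0) (C t 1) :=
    fun t ht j => hno t ht j 0
  have hpos : ∀ j : Fin (k + 1), ∀ t ∈ Icc (0 : ℝ) 1,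
      0 < bw (C t 0) (C t 1) (C t 2) (A t j) ∧ 0 < bw (C t 1) (C t 2) (C t 0) (A t j)
        ∧ 0 < bw (C t 2) (C t 0) (C t 1) (A t j) := by
    intro j t₁ ht₁
    have hcont : ∀ i₀ i₁ i₂ : Fin (0 + 3),
        ContinuousOn (fun t => bw (C t i₀) (C t i₁) (C t i₂) (A t j)) (Icc 0 1) := by
      intro i₀ i₁ i₂
      have c0 := hm.closed_continuous i₀
      have c1 := hm.closed_continuous i₁
      have c2 := hm.closed_continuous i₂
      have ca := hm.open_continuous j
      have r0 := Complex.continuous_re.comp_continuousOn c0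
      have r1 := Complex.continuous_re.comp_continuousOn c1
      have r2 := Complex.continuous_re.comp_continuousOn c2
      have ra := Complex.continuous_re.comp_continuousOn ca
      have m0 := Complex.continuous_im.comp_continuousOn c0
      have m1 := Complex.continuous_im.comp_continuousOn c1
      have m2 := Complex.continuous_im.comp_continuousOn c2
      have ma := Complex.continuous_im.comp_continuousOn ca
      simp only [bw, area, cr, Complex.sub_re, Complex.sub_im]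
      exact (((r1.sub ra).mul (m2.sub ma)).sub ((m1.sub ma).mul (r2.sub ra))).mul
        (((r1.sub r0).mul (m2.sub m0)).sub ((m1.sub m0).mul (r2.sub r0)))
    set f : ℝ → ℝ := fun t => min (bw (C t 0) (C t 1) (C t 2) (A t j))
      (min (bw (C t 1) (C t 2) (C t 0) (A t j)) (bw (C t 2) (C t 0) (C t 1) (A t j))) with hf
    have hmin : ∀ f g : ℝ → ℝ, ContinuousOn f (Icc 0 1) → ContinuousOn g (Icc 0 1) →
        ContinuousOn (fun t => min (f t) (g t)) (Icc 0 1) := fun f g hf hg =>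
      continuous_min.comp_continuousOn (hf.prodMk hg)
    have hfc : ContinuousOn f (Icc 0 1) :=
      hmin _ _ (hcont 0 1 2) (hmin _ _ (hcont 1 2 0) (hcont 2 0 1))
    have hf0 : 0 < f 0 := by
      have h0 : (0 : ℝ) ∈ Icc (0 : ℝ) 1 := ⟨le_rfl, zero_le_one⟩
      have hb := bw_hull (hin j)
      rw [← hm.closed_start, ← hm.open_start] at hb
      have := bw_pos (hArea 0 h0) hb.1 hb.2.1 hb.2.2 (hn0 0 h0 j) (hn1 0 h0 j) (hn2 0 h0 j)
      exact lt_min this.1 (lt_min this.2.1 this.2.2)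
    have hfpos : 0 < f t₁ := by
      by_contra hneg
      push Not at hneg
      have hsub : Icc (0 : ℝ) t₁ ⊆ Icc 0 1 := Icc_subset_Icc_right ht₁.2
      have := intermediate_value_Icc' ht₁.1 (hfc.mono hsub)
      obtain ⟨t, ht, hft⟩ := this ⟨hneg, hf0.le⟩
      have ht' := hsub ht
      have h1 : 0 ≤ bw (C t 0) (C t 1) (C t 2) (A t j) := by rw [← hft]; exact min_le_left _ _
      have h2 : 0 ≤ bw (C t 1) (C t 2) (C t 0) (A t j) := by
        rw [← hft]; exact (min_le_right _ _).trans (min_le_left _ _)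
      have h3 : 0 ≤ bw (C t 2) (C t 0) (C t 1) (A t j) := by
        rw [← hft]; exact (min_le_right _ _).trans (min_le_right _ _)
      have := bw_pos (hArea t ht') h1 h2 h3 (hn0 t ht' j) (hn1 t ht' j) (hn2 t ht' j)
      have : 0 < f t := lt_min this.1 (lt_min this.2.1 this.2.2)
      rw [hft] at this
      exact lt_irrefl _ this
    exact ⟨hfpos.trans_le (min_le_left _ _),
      hfpos.trans_le ((min_le_right _ _).trans (min_le_left _ _)),
      hfpos.trans_le ((min_le_right _ _).trans (min_le_right _ _))⟩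
  have h1 : (1 : ℝ) ∈ Icc (0 : ℝ) 1 := ⟨zero_le_one, le_rfl⟩
  have hl : ∑ j : Fin k, dist (a j.castSucc) (a j.succ)
      = dist (A 1 0) (A 1 (Fin.last k)) := by
    rw [← straight_dist hst]
    exact Finset.sum_congr rfl fun j _ => (hm.open_length 1 h1 j).symm
  rw [hl]
  obtain ⟨p0, p1, p2⟩ := hpos 0 1 h1
  obtain ⟨q0, q1, q2⟩ := hpos (Fin.last k) 1 h1
  exact dist_lt (hArea 1 h1) p0 p1 p2 q0 q1 q2 (by rw [e01 1 h1]; exact h01)
    (by rw [e12 1 h1]; exact h12) (by rw [e20 1 h1]; exact h20) hD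

end Pool.Agent.MP_aff8ab_lc
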